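import Pool.Agent.U735.FF.Base

/-!
# The existence of the t-structure over a finite field
-/

set_option autoImplicit false
set_option linter.unusedSectionVars false
set_option linter.unusedSimpArgs false
set_option backward.isDefEq.respectTransparency false
set_option backward.defeqAttrib.useBackward true

open CategoryTheory Limits MonoidalCategory Pretriangulated Triangulated ZeroObject
open scoped Polynomial

namespace Pool.Agent.U735.FF

open Pool.Agent.Y116.MT Pool.Agent.V1178.MT Pool.Agent.U735.IL Pool.Agent.U735.TC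

universe v u w

section

variable {C : Type u} [Category.{v} C] [Preadditive C] [HasZeroObject C] [HasShift C ℤ]
  [∀ n : ℤ, (shiftFunctor C n).Additive] [Pretriangulated C] [MonoidalCategory C]
  [SymmetricCategory C] [TensorTriangulated C] [MonoidalPreadditive C] [RightRigidCategory C]
  [IsTriangulated C] [Linear ℚ C] {Chow : ObjectProperty C} {φ : 𝟭 C ⟶ 𝟭 C} {Λ : Type*}
  {E : Λ → Type w} [∀ l, Field (E l)] {R : ∀ l, Realisation C (E l)}

/-- Shifts of Chow motives which are concentrated in degree `d` for all realisations. -/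
def Qd (Chow : ObjectProperty C) (R : ∀ l, Realisation C (E l)) (d : ℤ) (X : C) : Prop :=
  (∃ m : ℤ, Chow (X⟦m⟧)) ∧ Pu R d X

/-- The union of these classes for `a ≤ d < b`. -/
def QB (Chow : ObjectProperty C) (R : ∀ l, Realisation C (E l)) (a b : ℤ) : ObjectProperty C :=
  fun X => ∃ d, a ≤ d ∧ d < b ∧ Qd Chow R d X

lemma qb_vanish {a b : ℤ} {X : C} (h : Ext (QB Chow R a b) X) (l' : Λ) {i : ℤ}
    (hi : i < a ∨ b ≤ i) : IsZero ((R l').H.obj (X⟦i⟧)) :=
  bt_vanish (ext_mono (fun _ ⟨d, h1, h2, h3⟩ => ⟨d, h1, h2, h3.2⟩) h) l' hi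

lemma pu_retract {d : ℤ} {X Y : C} (h : Pu R d X) (i : Y ⟶ X) (r : X ⟶ Y) (hir : i ≫ r = 𝟙 _) :
    Pu R d Y := fun l' n hn => by
  rw [IsZero.iff_id_eq_zero]
  have h1 : (R l').H.map (i⟦n⟧') ≫ (R l').H.map (r⟦n⟧') = 𝟙 _ := by
    rw [← Functor.map_comp, ← Functor.map_comp, hir, CategoryTheory.Functor.map_id,
      CategoryTheory.Functor.map_id]
  rw [← h1, (h l' n hn).eq_of_tgt ((R l').H.map (i⟦n⟧')) 0, zero_comp]

lemma Qd.retract (hC : FiniteFieldMotives Chow φ R) {d : ℤ} {X Y : C} (h : Qd Chow R d X)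
    (i : Y ⟶ X) (r : X ⟶ Y) (hir : i ≫ r = 𝟙 _) : Qd Chow R d Y := by
  obtain ⟨⟨m, h1⟩, h2⟩ := h
  exact ⟨⟨m, hC.summand _ _ (i⟦m⟧') (r⟦m⟧') (by
    rw [← Functor.map_comp, hir, CategoryTheory.Functor.map_id]) h1⟩, pu_retract h2 i r hir⟩

lemma Qd.shift (hC : FiniteFieldMotives Chow φ R) {d : ℤ} {X : C} (h : Qd Chow R d X) (n e : ℤ)
    (he : n + e = d) : Qd Chow R e (X⟦n⟧) := by
  obtain ⟨⟨m, h1⟩, h2⟩ := h
  refine ⟨⟨m - n, hC.iso h1 ((shiftFunctorAdd' C n (m - n) m (by omega)).app X)⟩, ?_⟩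
  intro l' i hi
  exact (h2 l' (n + i) (by omega)).of_iso ((R l').H.mapIso ((shiftFunctorAdd C n i).app X).symm)

/-- The additive condition used below. -/
structure Cond (Chow : ObjectProperty C) : Prop where
  hQ : ∀ e : 𝟙_ C ⟶ 𝟙_ C, ∃ q : ℚ, e = q • 𝟙 (𝟙_ C)
  hp : Parshin Chow
  hr : RationalEqualsNumerical Chow

section

variable (hC : FiniteFieldMotives Chow φ R) (hc : Cond Chow) (l : Λ)

include hC hc l

/-- The morphisms between the objects of the classes. -/
lemma qd_regular {d e : ℤ} {X Y : C} (hX : Qd Chow R d X) (hY : Qd Chow R e Y) (f : X ⟶ Y) :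
    ∃ g : Y ⟶ X, f ≫ g ≫ f = f := by
  obtain ⟨⟨m, hm⟩, hX2⟩ := hX
  obtain ⟨⟨n, hn⟩, hY2⟩ := hY
  by_cases hmn : m = n
  swap
  · refine ⟨0, ?_⟩
    rw [hom_zero_of_ne hC hc.hp hm hn hmn f]
    simp
  subst hmn
  by_cases hde : d = e
  · subst hde
    exact regular_hom' hc.hQ hC hc.hr l hm hn (fun i hi => hX2 l i hi) (fun i hi => hY2 l i hi) f
  · have h1 : f⟦m⟧' = 0 := by
      apply zero_of_H hc.hQ hC hc.hr l hm hn
      intro i
      by_cases hi : m + i = d
      · have h2 : IsZero ((R l).H.obj ((Y⟦m⟧)⟦i⟧)) :=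
          (hY2 l (m + i) (by omega)).of_iso ((R l).H.mapIso ((shiftFunctorAdd C m i).app Y).symm)
        exact h2.eq_of_tgt _ _
      · have h2 : IsZero ((R l).H.obj ((X⟦m⟧)⟦i⟧)) :=
          (hX2 l (m + i) hi).of_iso ((R l).H.mapIso ((shiftFunctorAdd C m i).app X).symm)
        exact h2.eq_of_src _ _
    refine ⟨0, ?_⟩
    have h2 : f = 0 := (shiftFunctor C m).map_injective (by rw [h1, Functor.map_zero])
    rw [h2]
    simp

/-- The swap of two parts in the wrong order. -/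
lemma qb_swap [IsIdempotentComplete C] {b c a' b' : ℤ} (X Y Z : C) (hX : QB Chow R c b X)
    (hZ : QB Chow R a' b' Z) (hT : Tr X Y Z) : Star (QB Chow R a' b') (QB Chow R c b) Y := by
  obtain ⟨f, g, h, hT⟩ := hT
  obtain ⟨d, hd1, hd2, hX⟩ := hX
  obtain ⟨e, he1, he2, hZ⟩ := hZ
  obtain ⟨k, hk⟩ := qd_regular hC hc l hZ (hX.shift hC 1 (d - 1) (by omega)) h
  have hid : (𝟙 Z - h ≫ k) ≫ (𝟙 Z - h ≫ k) = 𝟙 Z - h ≫ k := by
    simp only [Preadditive.sub_comp, Preadditive.comp_sub, Category.id_comp, Category.comp_id,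
      Category.assoc]
    rw [reassoc_of% hk]
    abel
  obtain ⟨Z₀, i, r, hir, hri⟩ := IsIdempotentComplete.idempotents_split Z _ hid
  have hih : i ≫ h = 0 := by
    have h1 : i = i ≫ (𝟙 Z - h ≫ k) := by rw [← hri, reassoc_of% hir]
    rw [h1, Category.assoc, Preadditive.sub_comp, Category.id_comp, Category.assoc, hk, sub_self,
      comp_zero]
  obtain ⟨i', hi'⟩ := ce3 hT i hih
  have his : i' ≫ g ≫ r = 𝟙 Z₀ := by
    rw [← Category.assoc, ← hi', hir]
  obtain ⟨W, q, w, hW⟩ := distinguished_cocone_triangle i'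
  have hw : w = 0 := by
    have h1 : w ≫ i'⟦(1 : ℤ)⟧' = 0 := comp31 hW
    have h2 : w ≫ (i' ≫ g ≫ r)⟦(1 : ℤ)⟧' = 0 := by
      rw [Functor.map_comp, reassoc_of% h1, zero_comp]
    rwa [his, CategoryTheory.Functor.map_id, Category.comp_id] at h2
  obtain ⟨s, hs⟩ := split3' hW hw
  -- the section, corrected
  obtain ⟨u, hu⟩ : ∃ u : W ⟶ Y, u = s - s ≫ g ≫ r ≫ i' := ⟨_, rfl⟩
  have huq : u ≫ q = 𝟙 W := by
    have h1 : i' ≫ q = 0 := comp12 hW
    rw [hu, Preadditive.sub_comp, hs, Category.assoc, Category.assoc, Category.assoc, h1,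
      comp_zero, comp_zero, comp_zero, sub_zero]
  have hur : u ≫ g ≫ r = 0 := by
    rw [hu, Preadditive.sub_comp]
    simp only [Category.assoc]
    rw [his, Category.comp_id, sub_self]
  have hug : u ≫ g = 0 := by
    have h1 : g ≫ h = 0 := comp23 hT
    have h2 : u ≫ g = u ≫ g ≫ (r ≫ i + h ≫ k) := by
      rw [hri, sub_add_cancel, Category.comp_id]
    rw [h2, Preadditive.comp_add, Preadditive.comp_add, reassoc_of% h1, zero_comp, comp_zero,
      add_zero, reassoc_of% hur, zero_comp]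
  obtain ⟨u', hu'⟩ := ce2 hT u hug
  have hret : u' ≫ (f ≫ q) = 𝟙 W := by
    rw [← Category.assoc, ← hu', huq]
  exact ⟨Z₀, W, ⟨e, he1, he2, hZ.retract hC i r hir⟩, ⟨d, hd1, hd2, hX.retract hC u' (f ≫ q) hret⟩,
    ⟨i', q, w, hW⟩⟩

lemma qb_star [IsIdempotentComplete C] {a b : ℤ} (c : ℤ) {X : C} (hX : Ext (QB Chow R a b) X) :
    Star (Ext (QB Chow R a c)) (Ext (QB Chow R c b)) X := by
  induction hX with
  | zero h0 => exact ⟨_, 0, .zero h0, .zero (isZero_zero C), Tr.zero₃ (Iso.refl _) (isZero_zero C)⟩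
  | step hT _ hZ ih =>
    refine star_ext (qb_swap hC hc l) hT ih ?_
    obtain ⟨d, h1, h2, h3⟩ := hZ
    by_cases h : d < c
    · exact ⟨_, 0, Ext.of ⟨d, h1, h, h3⟩, .zero (isZero_zero C),
        Tr.zero₃ (Iso.refl _) (isZero_zero C)⟩
    · exact ⟨0, _, .zero (isZero_zero C), Ext.of ⟨d, by omega, h2, h3⟩,
        Tr.zero₁ (Iso.refl _) (isZero_zero C)⟩

lemma qd_zero {d : ℤ} {X : C} (hX : Qd Chow R d X) (h : IsZero ((R l).H.obj (X⟦d⟧))) :
    IsZero X := by
  obtain ⟨⟨m, hm⟩, hX2⟩ := hX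
  apply isZero_of_shift m
  rw [IsZero.iff_id_eq_zero]
  apply zero_of_H hc.hQ hC hc.hr l hm hm
  intro i
  have h2 : IsZero ((R l).H.obj ((X⟦m⟧)⟦i⟧)) := by
    by_cases hi : m + i = d
    · subst hi
      exact h.of_iso ((R l).H.mapIso ((shiftFunctorAdd C m i).app X).symm)
    · exact (hX2 l (m + i) hi).of_iso ((R l).H.mapIso ((shiftFunctorAdd C m i).app X).symm)
  exact h2.eq_of_src _ _

lemma cons_part {d : ℤ} {X : C} (hX : Ext (QB Chow R d (d + 1)) X) :
    (∀ i : ℤ, IsZero ((R l).H.obj (X⟦i⟧))) → IsZero X := by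
  induction hX with
  | zero h => exact fun _ => h
  | step hT hX1 hZ ih =>
    intro hY
    obtain ⟨e, h1, h2, h3⟩ := hZ
    obtain rfl : e = d := by omega
    obtain ⟨f, g, h, hT⟩ := hT
    have hX2 := ih fun i => by
      by_cases hi : i = e
      · exact hz1 (R l).H hT i (hY i) (h3.2 l _ (by omega))
      · exact qb_vanish hX1 l (by omega)
    have hZ2 := qd_zero hC hc l h3
      (hz3 (R l).H hT e (hY e) ((R l).H.map_isZero (isZero_shift hX2 _)))
    exact isZero2 hT hX2 hZ2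

lemma cons_all [IsIdempotentComplete C] (n : ℕ) : ∀ (a : ℤ) (X : C),
    Ext (QB Chow R a (a + n)) X → (∀ i : ℤ, IsZero ((R l).H.obj (X⟦i⟧))) → IsZero X := by
  induction n with
  | zero =>
    intro a X hX _
    cases hX with
    | zero h => exact h
    | step hT hX1 hZ =>
      obtain ⟨d, h1, h2, -⟩ := hZ
      simp at h2
      omega
  | succ n ih =>
    intro a X hX hH
    obtain ⟨U, V, hU, hV, f, g, h, hT⟩ := qb_star hC hc l (a + n) hX
    have hU1 : IsZero U := ih a U hU fun i => by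
      by_cases hi : i < a + n
      · exact hz1 (R l).H hT i (hH i) (qb_vanish hV l (by omega))
      · exact qb_vanish hU l (by omega)
    have hV1 : IsZero V := by
      rw [show a + ((n + 1 : ℕ) : ℤ) = a + n + 1 by push_cast; ring] at hV
      exact cons_part hC hc l hV fun i =>
        hz3 (R l).H hT i (hH i) ((R l).H.map_isZero (isZero_shift hU1 _))
    exact isZero2 hT hU1 hV1

end

/-- The decomposition of a Chow motive. -/
lemma decomp [IsIdempotentComplete C] (hC : FiniteFieldMotives Chow φ R) (p : ℤ → ℚ[X])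
    (hcop : ∀ i j : ℤ, i ≠ j → IsCoprime (p i) (p j)) (a b : ℤ) (s : Finset ℤ) :
    (∀ i ∈ s, a ≤ i ∧ i < b) → ∀ P : C, Chow P →
      (∀ (l : Λ) (i : ℤ), (R l).H.map ((pol φ (p i) P)⟦i⟧') = 0) →
      pol φ (∏ i ∈ s, p i) P = 0 → Ext (QB Chow R a b) P := by
  induction s using Finset.induction_on with
  | empty =>
    intro _ P _ _ h
    rw [Finset.prod_empty, pol_one] at h
    exact .zero ((IsZero.iff_id_eq_zero P).2 h)
  | insert j s hj ih =>
    intro hs P hP hw h
    rw [Finset.prod_insert hj] at h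
    have hcop' : IsCoprime (p j) (∏ i ∈ s, p i) :=
      IsCoprime.prod_right fun i hi => hcop j i (by rintro rfl; exact hj hi)
    obtain ⟨A, B, i, r, k, q, hir, hkq, ht, hA, hB, -⟩ := split_coprime hcop' h
    have hw' : ∀ {D : C} (u : D ⟶ P) (v : P ⟶ D), u ≫ v = 𝟙 D →
        ∀ (l : Λ) (i : ℤ), (R l).H.map ((pol φ (p i) D)⟦i⟧') = 0 := by
      intro D u v huv l i
      have h1 : pol φ (p i) D = u ≫ pol φ (p i) P ≫ v := by
        rw [← Category.assoc, ← pol_nat, Category.assoc, huv, Category.comp_id]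
      rw [h1, Functor.map_comp, Functor.map_comp, Functor.map_comp, Functor.map_comp, hw,
        zero_comp, comp_zero]
    have hAc : Chow A := hC.summand _ _ i r hir hP
    have hBc : Chow B := hC.summand _ _ k q hkq hP
    have h1 : Ext (QB Chow R a b) B :=
      ih (fun i hi => hs i (Finset.mem_insert_of_mem hi)) B hBc (hw' k q hkq) hB
    have h2 : QB Chow R a b A := by
      obtain ⟨h3, h4⟩ := hs j (Finset.mem_insert_self _ _)
      refine ⟨j, h3, h4, ⟨0, hC.iso hAc ((shiftFunctorZero C ℤ).app A).symm⟩, fun l' n hn => ?_⟩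
      obtain ⟨u, v, huv⟩ := hcop j n (Ne.symm hn)
      have h5 : 𝟙 A = pol φ (p n) A ≫ pol φ v A := by
        rw [← pol_one φ A, ← huv, pol_add, mul_comm u, pol_mul, hA, zero_comp, zero_add,
          mul_comm v, pol_mul]
      rw [IsZero.iff_id_eq_zero, ← CategoryTheory.Functor.map_id, ← CategoryTheory.Functor.map_id,
        h5, Functor.map_comp, Functor.map_comp, hw' i r hir, zero_comp]
    exact Ext.ext (tr_of_split hir hkq ht) (Ext.of h2) h1

section

variable (hC : FiniteFieldMotives Chow φ R) (hc : Cond Chow) (l : Λ)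

include hC hc l

/-- The polynomials kill the motive. -/
lemma weil_zero {P : C} (hP : Chow P) (p : ℤ → ℚ[X])
    (hw : ∀ (l : Λ) (i : ℤ), (R l).H.map ((pol φ (p i) P)⟦i⟧') = 0) (N : ℕ)
    (hN : ∀ i : ℤ, N < i.natAbs → IsZero ((R l).H.obj (P⟦i⟧))) :
    pol φ (∏ i ∈ Finset.Icc (-N : ℤ) N, p i) P = 0 := by
  apply zero_of_H hc.hQ hC hc.hr l hP hP
  intro i
  by_cases hi : N < i.natAbs
  · exact (hN i hi).eq_of_src _ _
  · have h1 : i ∈ Finset.Icc (-N : ℤ) N := by
      rw [Finset.mem_Icc]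
      omega
    rw [← Finset.mul_prod_erase _ _ h1, pol_mul, Functor.map_comp, Functor.map_comp, hw,
      zero_comp]

lemma chow_ext [IsIdempotentComplete C] {P : C} (hP : Chow P) :
    ∃ a b : ℤ, Ext (QB Chow R a b) P := by
  obtain ⟨p, hcop, -, hw⟩ := hC.weil P hP
  obtain ⟨N, hN⟩ := (R l).bounded P
  refine ⟨-N, N + 1, decomp hC p hcop _ _ (Finset.Icc (-N : ℤ) N) (fun i hi => ?_) P hP hw
    (weil_zero hC hc l hP p hw N hN)⟩
  rw [Finset.mem_Icc] at hi
  omega

omit hc l in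
lemma ext_shift {a b : ℤ} {X : C} (hX : Ext (QB Chow R a b) X) (m : ℤ) :
    Ext (QB Chow R (a - m) (b - m)) (X⟦m⟧) := by
  induction hX with
  | zero h => exact .zero (isZero_shift h m)
  | step hT _ hZ ih =>
    obtain ⟨d, h1, h2, h3⟩ := hZ
    exact .step (hT.shift m) ih ⟨d - m, by omega, by omega, h3.shift hC m _ (by omega)⟩

lemma all_ext [IsIdempotentComplete C] (X : C) : ∃ a b : ℤ, Ext (QB Chow R a b) X := by
  refine hC.generate (fun X => ∃ a b : ℤ, Ext (QB Chow R a b) X) ?_ ?_ X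
  · intro P hP m
    obtain ⟨a, b, h⟩ := chow_ext hC hc l hP
    exact ⟨_, _, ext_shift hC h m⟩
  · rintro X Y Z f g h hT ⟨a, b, hX⟩ ⟨a', b', hZ⟩
    refine ⟨min a a', max b b', Ext.ext ⟨f, g, h, hT⟩ (ext_mono ?_ hX) (ext_mono ?_ hZ)⟩
    · rintro W ⟨d, h1, h2, h3⟩
      exact ⟨d, le_trans (min_le_left _ _) h1, lt_of_lt_of_le h2 (le_max_left _ _), h3⟩
    · rintro W ⟨d, h1, h2, h3⟩
      exact ⟨d, le_trans (min_le_right _ _) h1, lt_of_lt_of_le h2 (le_max_right _ _), h3⟩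

lemma cons_of [IsIdempotentComplete C] : Conservative (R l) := by
  intro X hX
  obtain ⟨a, b, h⟩ := all_ext hC hc l X
  by_cases hab : a ≤ b
  · obtain ⟨n, hn⟩ : ∃ n : ℕ, b = a + n := ⟨(b - a).toNat, by omega⟩
    subst hn
    exact cons_all hC hc l n a X h hX
  · refine cons_all hC hc l 0 a X (ext_mono ?_ h) hX
    rintro W ⟨d, h1, h2, h3⟩
    omega

lemma lowest_of [IsIdempotentComplete C] : LowestHasSub R l := by
  intro X hX hX0
  obtain ⟨a, b, h⟩ := all_ext hC hc l X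
  obtain ⟨U, V, hU, hV, f, g, δ, hT⟩ := qb_star hC hc l 1 h
  obtain ⟨U', W, hU', hW, f', g', δ', hT'⟩ := qb_star hC hc l 0 hU
  have hU1 : ∀ i : ℤ, i < 0 → IsZero ((R l).H.obj (U⟦i⟧)) := fun i hi =>
    hz1 (R l).H hT i (hX i hi) (qb_vanish hV l (by omega))
  have hU2 : IsZero U' := cons_of hC hc l _ fun i => by
    by_cases hi : i < 0
    · exact hz1 (R l).H hT' i (hU1 i hi) (qb_vanish hW l (by omega))
    · exact qb_vanish hU' l (by omega)
  have : IsIso g' := isIso2_of_isZero1 hT' hU2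
  have hv : VIso (R l) 0 f :=
    VIso.of₃ hT (qb_vanish hV l (by omega)) (qb_vanish hV l (by omega))
  have hv' : IsIso ((R l).H.map f) := (vIso_zero_iff f).1 hv
  refine ⟨U, f, fun h0 => hX0 ?_, fun l' i hi => ?_, inferInstance⟩
  · exact ((R l).H.map_isZero h0).of_iso (asIso ((R l).H.map f)).symm
  · exact (qb_vanish hW l' (by omega)).of_iso
      ((R l').H.mapIso ((shiftFunctor C i).mapIso (asIso g')))

/-- The existence. -/
theorem exists_of [IsIdempotentComplete C] : ∃ t : TStructure C, IsMotivic t R :=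
  exists_motivic (unit_idem hc.hQ) (cons_of hC hc l) (lowest_of hC hc l)

end

end

end Pool.Agent.U735.FF
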