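import Pool.Agent.U735.FF.Pol
import Pool.Agent.U735.IL.Reg
import Pool.Agent.U735.TC.Main

/-!
# Nondegeneracy and regularity from the equality of rational and numerical equivalence
-/

set_option autoImplicit false
set_option linter.unusedSectionVars false
set_option linter.unusedSimpArgs false
set_option backward.isDefEq.respectTransparency false
set_option backward.defeqAttrib.useBackward true

open CategoryTheory Limits MonoidalCategory Pretriangulated Triangulated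

namespace Pool.Agent.U735.FF

open Pool.Agent.Y116.MT Pool.Agent.V1178.MT Pool.Agent.U735.IL Pool.Agent.U735.TC

universe v u w

open Functor.LaxMonoidal

section

variable {C : Type u} [Category.{v} C] [Preadditive C] [HasZeroObject C] [HasShift C ℤ]
  [∀ n : ℤ, (shiftFunctor C n).Additive] [Pretriangulated C] [MonoidalCategory C]
  [SymmetricCategory C] [TensorTriangulated C]

lemma lShift_natural {X X' : C} (f : X ⟶ X') (Y : C) (n : ℤ) :
    (f⟦n⟧') ▷ Y ≫ (lShift X' Y n).hom = (lShift X Y n).hom ≫ (f ▷ Y)⟦n⟧' := by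
  simp only [lShift, Iso.trans_hom, Functor.mapIso_hom, Category.assoc]
  rw [BraidedCategory.braiding_naturality_left_assoc, reassoc_of% rShift_natural_right Y f n,
    ← Functor.map_comp, ← Functor.map_comp, BraidedCategory.braiding_naturality_right]

lemma shiftTensorIso_natural {X X' : C} (f : X ⟶ X') (Y : C) (i : ℤ) :
    (f⟦i⟧') ▷ (Y⟦-i⟧) ≫ (shiftTensorIso X' Y i).hom = (shiftTensorIso X Y i).hom ≫ f ▷ Y := by
  simp only [shiftTensorIso, Iso.trans_hom, Functor.mapIso_hom, Category.assoc]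
  rw [reassoc_of% rShift_natural_left (f⟦i⟧') Y (-i), ← Functor.map_comp_assoc, lShift_natural,
    Functor.map_comp_assoc]
  congr 2
  exact (shiftFunctorCompIsoId C i (-i) (add_neg_cancel i)).hom.naturality (f ▷ Y)

/-- A linear map out of the target of a surjection from a direct sum. -/
lemma zero_of_toModule {E : Type w} [Field E] {M : ℤ → Type w} [∀ i, AddCommGroup (M i)]
    [∀ i, Module E (M i)] {N N' : Type w} [AddCommGroup N] [Module E N] [AddCommGroup N']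
    [Module E N'] (f : ∀ i, M i →ₗ[E] N) (g : N →ₗ[E] N') (h : ∀ i, g ∘ₗ f i = 0)
    (hs : Function.Surjective (DirectSum.toModule E ℤ N f)) : g = 0 := by
  have h1 : g ∘ₗ DirectSum.toModule E ℤ N f = 0 := by
    apply DirectSum.linearMap_ext
    intro i
    apply LinearMap.ext
    intro x
    have h2 := LinearMap.congr_fun (h i) x
    simpa using h2
  apply LinearMap.ext
  intro y
  obtain ⟨x, rfl⟩ := hs y
  exact LinearMap.congr_fun h1 x

/-- `H` vanishes on `f ▷ Y` if all `H^i` vanish on `f`. -/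
lemma map_whisker_zero' {E : Type w} [Field E] (R : Realisation C E) {X X' : C} (f : X ⟶ X')
    (hf : ∀ i : ℤ, R.H.map (f⟦i⟧') = 0) (Y : C) : R.H.map (f ▷ Y) = 0 := by
  apply ModuleCat.hom_ext
  refine zero_of_toModule (E := E)
    (M := fun i : ℤ => (R.H.obj (X⟦i⟧) ⊗ R.H.obj (Y⟦-i⟧) : ModuleCat.{w} E))
    (fun i : ℤ => (μ R.H (X⟦i⟧) (Y⟦-i⟧) ≫ R.H.map (shiftTensorIso X Y i).hom).hom) _
    (fun i => ?_) (R.kunneth X Y).2
  have h2 : μ R.H (X⟦i⟧) (Y⟦-i⟧) ≫ R.H.map (shiftTensorIso X Y i).hom ≫ R.H.map (f ▷ Y) = 0 := by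
    have h3 : (0 : R.H.obj (X⟦i⟧) ⟶ R.H.obj (X'⟦i⟧)) ▷ R.H.obj (Y⟦-i⟧) = 0 :=
      (tensorRight _).map_zero _ _
    rw [← Functor.map_comp, ← shiftTensorIso_natural, Functor.map_comp, ← μ_natural_left_assoc,
      hf, h3, zero_comp]
  exact congrArg ModuleCat.Hom.hom h2

end

section

variable {C : Type u} [Category.{v} C] [Preadditive C] [HasZeroObject C] [HasShift C ℤ]
  [∀ n : ℤ, (shiftFunctor C n).Additive] [Pretriangulated C] [MonoidalCategory C]
  [SymmetricCategory C] [TensorTriangulated C] [MonoidalPreadditive C] [RightRigidCategory C]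
  [Linear ℚ C] {Chow : ObjectProperty C} {φ : 𝟭 C ⟶ 𝟭 C} {Λ : Type*} {E : Λ → Type w}
  [∀ l, Field (E l)] {R : ∀ l, Realisation C (E l)}

lemma FiniteFieldMotives.iso (hC : FiniteFieldMotives Chow φ R) {P Q : C} (h : Chow P)
    (e : P ≅ Q) : Chow Q :=
  hC.summand Q P e.inv e.hom (by simp) h

lemma FiniteFieldMotives.zero_of_lt (hC : FiniteFieldMotives Chow φ R) {X Y : C} {m n : ℤ}
    (hX : Chow (X⟦m⟧)) (hY : Chow (Y⟦n⟧)) (h : n < m) (f : X ⟶ Y) : f = 0 := by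
  have h1 := hC.negative _ _ hX hY (m - n) (by omega)
    (f⟦m⟧' ≫ ((shiftFunctorAdd' C n (m - n) m (by omega)).app Y).hom)
  have h2 : f⟦m⟧' = 0 := by
    rw [← cancel_mono ((shiftFunctorAdd' C n (m - n) m (by omega)).app Y).hom, h1, zero_comp]
  exact (shiftFunctor C m).map_injective (by rw [h2, Functor.map_zero])

lemma FiniteFieldMotives.tensorShift (hC : FiniteFieldMotives Chow φ R) {X Y : C} {m n : ℤ}
    (hX : Chow (X⟦m⟧)) (hY : Chow (Y⟦n⟧)) : Chow ((X ⊗ Y)⟦m + n⟧) :=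
  hC.iso (hC.tensor _ _ hX hY) (lrShift X Y m n)

lemma FiniteFieldMotives.dualShift (hC : FiniteFieldMotives Chow φ R) {X : C} {m : ℤ}
    (hX : Chow (X⟦m⟧)) : Chow ((Xᘁ : C)⟦-m⟧) :=
  hC.iso (hC.dual _ hX) ((shiftEquiv C m).unitIso.app _ ≪≫
    (shiftFunctor C (-m)).mapIso (IL.dualShift X m))

/-- Shifts of Chow motives by different integers have no morphisms. -/
lemma hom_zero_of_ne (hC : FiniteFieldMotives Chow φ R) (hp : Parshin Chow) {X Y : C} {m n : ℤ}
    (hX : Chow (X⟦m⟧)) (hY : Chow (Y⟦n⟧)) (h : m ≠ n) (f : X ⟶ Y) : f = 0 := by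
  rcases lt_or_gt_of_ne h with h1 | h1
  swap
  · exact hC.zero_of_lt hX hY h1 f
  apply eq_zero_of_nm
  have h2 : Chow ((Y ⊗ Xᘁ)⟦n + -m⟧) := hC.tensorShift hY (hC.dualShift hX)
  have h3 := hp _ h2 (-(n + -m)) (by omega)
    (nm f ≫ ((shiftEquiv C (n + -m)).unitIso.app (Y ⊗ Xᘁ)).hom)
  rw [← cancel_mono ((shiftEquiv C (n + -m)).unitIso.app (Y ⊗ Xᘁ)).hom, h3, zero_comp]

/-- The trace form is non-degenerate. -/
lemma trace_nondeg' (hC : FiniteFieldMotives Chow φ R) (hr : RationalEqualsNumerical Chow) {X : C}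
    {m : ℤ} (hX : Chow (X⟦m⟧)) (a : X ⟶ X) (ha : a ≠ 0) : ∃ b : X ⟶ X, tr (a ≫ b) ≠ 0 := by
  by_contra hcon
  push Not at hcon
  have h1 : Chow (X ⊗ Xᘁ) := by
    have h2 : Chow ((X ⊗ Xᘁ)⟦m + -m⟧) := hC.tensorShift hX (hC.dualShift hX)
    rw [add_neg_cancel] at h2
    exact hC.iso h2 ((shiftFunctorZero C ℤ).app _)
  refine ha (eq_zero_of_nm a (hr _ h1 (nm a) fun r => ?_))
  obtain ⟨b, hb⟩ := exists_tr r
  rw [hb, hcon]

variable (hQ : ∀ e : 𝟙_ C ⟶ 𝟙_ C, ∃ q : ℚ, e = q • 𝟙 (𝟙_ C))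

include hQ

/-- The realisation is faithful on the endomorphisms of the unit. -/
lemma unit_zero {F : Type w} [Field F] (S : Realisation C F) (e : 𝟙_ C ⟶ 𝟙_ C)
    (h : S.H.map e = 0) : e = 0 := by
  obtain ⟨_⟩ := ratAlgebra S
  have h1 : ev S e = 0 := by
    change (ε S.H ≫ S.H.map e ≫ inv (ε S.H)).hom (1 : F) = 0
    rw [h, zero_comp, comp_zero]
    rfl
  rw [ev_eq hQ, map_eq_zero] at h1
  rw [num_spec hQ e, h1, zero_smul]

/-- The realisation is faithful on Chow motives. -/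
lemma zero_of_H (hC : FiniteFieldMotives Chow φ R) (hr : RationalEqualsNumerical Chow) (l : Λ)
    {P Q : C} (hP : Chow P) (hQ' : Chow Q) (a : P ⟶ Q)
    (ha : ∀ i : ℤ, (R l).H.map (a⟦i⟧') = 0) : a = 0 := by
  apply eq_zero_of_nm
  refine hr _ (hC.tensor _ _ hQ' (hC.dual _ hP)) _ fun r => ?_
  apply unit_zero hQ (R l)
  rw [nm, Functor.map_comp, Functor.map_comp, map_whisker_zero' (R l) a ha, comp_zero, zero_comp]

lemma regular_end' (hC : FiniteFieldMotives Chow φ R) (hr : RationalEqualsNumerical Chow) (l : Λ)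
    {X : C} {m : ℤ} (hX : Chow (X⟦m⟧)) (hdeg : (R l).Deg X 0) (a : X ⟶ X) :
    ∃ b : X ⟶ X, a ≫ b ≫ a = a := by
  obtain ⟨_⟩ := ratAlgebra (R l)
  have hinj : Function.Injective (fun q : ℚ => q • 𝟙 (𝟙_ C)) := by
    intro p q hpq
    have h1 : (p - q) • 𝟙 (𝟙_ C) = 0 := by
      rw [sub_smul, sub_eq_zero]
      exact hpq
    by_contra hne
    have h2 := (smul_eq_zero_iff_right (sub_ne_zero.2 hne)).1 h1
    exact not_isZero_unit (R l) ((IsZero.iff_id_eq_zero _).2 h2)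
  let τ0 : End X →+ ℚ := AddMonoidHom.mk' (fun a : End X => num hQ (tr (X := X) a)) (by
    intro a b
    apply hinj
    have h1 : tr (X := X) (a + b) = tr (X := X) a + tr (X := X) b := tr_add a b
    have h2 : num hQ (tr (X := X) (a + b)) • 𝟙 (𝟙_ C) = (num hQ (tr (X := X) a) +
        num hQ (tr (X := X) b)) • 𝟙 (𝟙_ C) := by
      rw [add_smul, ← num_spec, ← num_spec, ← num_spec, h1]
    exact h2)
  let τ : End X →ₗ[ℚ] ℚ := τ0.toRatLinearMap
  have hτ : ∀ a : End X, LinearMap.trace (E l) ((R l).H.obj X) (act (R l) X a) =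
      algebraMap ℚ (E l) (τ a) := fun a => trace_eq hQ (R l) hdeg a
  have hnd : ∀ a : End X, a ≠ 0 → ∃ b : End X, τ (a * b) ≠ 0 := by
    intro a ha
    obtain ⟨b0, hb⟩ := trace_nondeg' hC hr hX a ha
    let b : End X := b0
    refine ⟨b, fun h0 => hb ?_⟩
    have h1 : algebraMap ℚ (E l) (τ (b * a)) = algebraMap ℚ (E l) (τ (a * b)) := by
      rw [← hτ, ← hτ, (act (R l) X).map_mul, (act (R l) X).map_mul, LinearMap.trace_mul_comm]
    have h2 : τ (b * a) = 0 := by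
      rw [h0, map_zero] at h1
      exact (map_eq_zero _).1 h1
    have h3 : num hQ (tr (X := X) (a ≫ b0)) = 0 := h2
    have h4 := num_spec hQ (tr (X := X) (a ≫ b0))
    rw [h4, h3, zero_smul]
  obtain ⟨b, hb⟩ := regular_of_trace (act (R l) X) τ hτ hnd a
  exact ⟨b, hb⟩

/-- The morphisms between objects in the same degree are von Neumann regular. -/
lemma regular_hom' (hC : FiniteFieldMotives Chow φ R) (hr : RationalEqualsNumerical Chow) (l : Λ)
    {X Y : C} {m d : ℤ} (hX : Chow (X⟦m⟧)) (hY : Chow (Y⟦m⟧)) (hXd : (R l).Deg X d)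
    (hYd : (R l).Deg Y d) (f : X ⟶ Y) : ∃ g : Y ⟶ X, f ≫ g ≫ f = f := by
  let S : C := X⟦d⟧ ⊞ Y⟦d⟧
  have hXd0 : (R l).Deg (X⟦d⟧) 0 := hXd.shift d 0 (by omega)
  have hYd0 : (R l).Deg (Y⟦d⟧) 0 := hYd.shift d 0 (by omega)
  have hS0 : (R l).Deg S 0 := fun i hi => hz1' (tr_biprod _ _) i (hXd0 i hi) (hYd0 i hi)
  have hS : Chow (S⟦m - d⟧) := by
    refine hC.iso (hC.sum _ _ hX hY) ?_
    have := preservesBinaryBiproduct_of_preservesBiproduct (shiftFunctor C (m - d))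
    refine ?_ ≪≫ ((shiftFunctor C (m - d)).mapBiprod (X⟦d⟧) (Y⟦d⟧)).symm
    exact biprod.mapIso ((shiftFunctorAdd' C d (m - d) m (by omega)).app X)
      ((shiftFunctorAdd' C d (m - d) m (by omega)).app Y)
  let a : S ⟶ S := biprod.fst ≫ f⟦d⟧' ≫ biprod.inr
  obtain ⟨b, hb⟩ := regular_end' hQ hC hr l hS hS0 a
  have h1 : f⟦d⟧' ≫ (biprod.inr ≫ b ≫ biprod.fst) ≫ f⟦d⟧' = f⟦d⟧' := by
    have h2 := congrArg (fun x => biprod.inl ≫ x ≫ biprod.snd) hb
    simpa [a] using h2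
  obtain ⟨g, hg⟩ := (shiftFunctor C d).map_surjective (biprod.inr ≫ b ≫ biprod.fst :
    Y⟦d⟧ ⟶ X⟦d⟧)
  refine ⟨g, (shiftFunctor C d).map_injective ?_⟩
  rw [Functor.map_comp, Functor.map_comp, hg]
  exact h1

end

end Pool.Agent.U735.FF
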