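import Pool.Agent.U735.IL.Defs

/-!
# Constructible motives over a finite field: definitions
-/

set_option autoImplicit false

open CategoryTheory Limits MonoidalCategory Pretriangulated Triangulated

namespace Pool.Agent.U735.FF

open Pool.Agent.Y116.MT Pool.Agent.V1178.MT Pool.Agent.U735.IL

universe v u w

section

variable {C : Type u} [Category.{v} C] [Preadditive C] [Linear ℚ C]

/-- The endomorphism `q(φ)` of `X`, for an endomorphism `φ` of the identity functor and a
polynomial `q` with rational coefficients. -/
noncomputable def pol (φ : 𝟭 C ⟶ 𝟭 C) (q : Polynomial ℚ) (X : C) : X ⟶ X :=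
  Polynomial.aeval (R := ℚ) (A := End X) (φ.app X) q

end

section

variable {C : Type u} [Category.{v} C] [Preadditive C] [HasZeroObject C] [HasShift C ℤ]
  [∀ n : ℤ, (shiftFunctor C n).Additive] [Pretriangulated C] [MonoidalCategory C]
  [SymmetricCategory C] [TensorTriangulated C] [RightRigidCategory C]

/-- Parshin's conjecture: `Hom(𝟙, P[n]) = 0` for `P` in the class and `n < 0`. For the class of Chow
motives over a finite field this says that the higher rational Chow groups (the higher rational
K-theory) of smooth projective varieties over the field vanish. -/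
def Parshin (Chow : ObjectProperty C) : Prop :=
  ∀ P : C, Chow P → ∀ n : ℤ, n < 0 → ∀ f : 𝟙_ C ⟶ P⟦n⟧, f = 0

/-- Rational and numerical equivalence coincide: a morphism `z : 𝟙 ⟶ P`, for `P` in the class, is
zero if all its composites with morphisms `P ⟶ 𝟙` are zero. -/
def RationalEqualsNumerical (Chow : ObjectProperty C) : Prop :=
  ∀ P : C, Chow P → ∀ z : 𝟙_ C ⟶ P, (∀ r : P ⟶ 𝟙_ C, z ≫ r = 0) → z = 0

variable [Linear ℚ C]

/-- The known properties of the full subcategory `Chow` of Chow motives (the direct summands of
finite sums of the `M(X)(m)[2m]`, `X` smooth and projective) of the category of constructible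
motives over a finite field, where `φ` is the Frobenius endomorphism and the `R l` are the `l`-adic
realisations:

* it contains the unit and is closed under direct summands, sums, tensor products and duals;
* `Hom(P, Q[m]) = 0` for Chow motives `P`, `Q` and `m > 0`;
* every constructible motive is an iterated extension of shifts of Chow motives;
* the Frobenius endomorphism is a natural endomorphism of all objects, compatible with the shifts,
  and it is the identity of the unit;
* the Weil conjectures: for a Chow motive `P` there are polynomials `p i` with rational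
  coefficients, `i` in `ℤ` (the characteristic polynomials of the Frobenius endomorphism on the
  `H^i(P)`, which are independent of `l`), pairwise coprime, with `p i 1 ≠ 0` for `i ≠ 0`, such
  that `p i (φ)` acts as zero on `H^i(P)` for all `l`. -/
structure FiniteFieldMotives (Chow : ObjectProperty C) (φ : 𝟭 C ⟶ 𝟭 C) {Λ : Type*}
    {E : Λ → Type w} [∀ l, Field (E l)] (R : ∀ l, Realisation C (E l)) : Prop
    extends ChowClosed Chow where
  sum : ClosedUnderSums Chow
  negative : NoPositiveExt Chow
  generate : Generates Chow
  frobenius_unit : φ.app (𝟙_ C) = 𝟙 (𝟙_ C)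
  frobenius_shift (X : C) (n : ℤ) : φ.app (X⟦n⟧) = (φ.app X)⟦n⟧'
  weil (P : C) : Chow P → ∃ p : ℤ → Polynomial ℚ,
    (∀ i j : ℤ, i ≠ j → IsCoprime (p i) (p j)) ∧ (∀ i : ℤ, i ≠ 0 → (p i).eval 1 ≠ 0) ∧
    ∀ (l : Λ) (i : ℤ), (R l).H.map ((pol φ (p i) P)⟦i⟧') = 0

end

end Pool.Agent.U735.FF
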