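import Pool.Agent.U735.FF.Back
import Pool.Agent.U735.IL.Main

/-!
# Consequences of the existence of the t-structure over a finite field
-/

set_option autoImplicit false
set_option linter.unusedSectionVars false
set_option linter.unusedSimpArgs false
set_option backward.isDefEq.respectTransparency false
set_option backward.defeqAttrib.useBackward true

open CategoryTheory Limits MonoidalCategory Pretriangulated Triangulated ZeroObject
open scoped Polynomial

namespace Pool.Agent.U735.FF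

open Pool.Agent.Y116.MT Pool.Agent.V1178.MT Pool.Agent.U735.IL Pool.Agent.U735.TC

universe v u w

section

variable {C : Type u} [Category.{v} C] [Preadditive C] [HasZeroObject C] [HasShift C ℤ]
  [∀ n : ℤ, (shiftFunctor C n).Additive] [Pretriangulated C] [MonoidalCategory C]
  [SymmetricCategory C] [TensorTriangulated C] [MonoidalPreadditive C] [RightRigidCategory C]
  [IsTriangulated C] [Linear ℚ C] {Chow : ObjectProperty C} {φ : 𝟭 C ⟶ 𝟭 C} {Λ : Type*}
  {E : Λ → Type w} [∀ l, Field (E l)] {R : ∀ l, Realisation C (E l)} {l : Λ} {t : TStructure C}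

/-- A polynomial which kills `H^n(P)` kills the `n`-th part of `P`. -/
lemma pc_kill (hG : Good t (R l)) {P : C} {n : ℤ} {q : ℚ[X]}
    (h : (R l).H.map ((pol φ q P)⟦n⟧') = 0) : pol φ q ((pc t n).obj P) = 0 := by
  have h1 := t.triangleLTGE_distinguished (n + 1) P
  have h2 := t.triangleLTGE_distinguished n ((t.truncLT (n + 1)).obj P)
  have h3 : t.IsGE ((t.truncGE (n + 1)).obj P) (n + 1) := inferInstance
  have h4 : t.IsLE ((t.truncLT n).obj ((t.truncLT (n + 1)).obj P)) (n - 1) := inferInstance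
  have v1 : VIso (R l) n ((t.truncLTι (n + 1)).app P) :=
    VIso.of₃ h1 (hG.he.isGE h3 _ (by omega)) (hG.he.isGE h3 _ (by omega))
  have v2 : VIso (R l) n ((t.truncGEπ n).app ((t.truncLT (n + 1)).obj P)) :=
    VIso.of₁ h2 (hG.he.isLE h4 _ (by omega)) (hG.he.isLE h4 _ (by omega))
  unfold VIso at v1 v2
  have e1 : (R l).H.map ((pol φ q ((t.truncLT (n + 1)).obj P))⟦n⟧') = 0 := by
    rw [← cancel_mono ((R l).H.map (((t.truncLTι (n + 1)).app P)⟦n⟧')), ← Functor.map_comp,
      ← Functor.map_comp, pol_nat, Functor.map_comp, Functor.map_comp]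
    erw [h]
    rw [comp_zero, zero_comp]
  have e2 : (R l).H.map ((pol φ q ((pc t n).obj P))⟦n⟧') = 0 := by
    rw [← cancel_epi ((R l).H.map (((t.truncGEπ n).app ((t.truncLT (n + 1)).obj P))⟦n⟧'))]
    have e3 := pol_nat φ q ((t.truncGEπ n).app ((t.truncLT (n + 1)).obj P))
    have e4 := congrArg (fun x => (R l).H.map (x⟦n⟧')) e3
    simp only [Functor.map_comp] at e4
    rw [comp_zero]
    exact e4.symm.trans (by rw [show (R l).H.map ((pol φ q ((𝟭 C).obj
      ((t.truncLT (n + 1)).obj P)))⟦n⟧') = 0 from e1, zero_comp])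
  have hc : Cn t 0 (((pc t n).obj P)⟦n⟧) := (pc_cn t n P).shift n 0 (by omega)
  have h5 := faithful_heart hG.ht hG.he hG.hu hG.hid ⟨hc.1, hc.2⟩ ⟨hc.1, hc.2⟩ _ e2
  exact (shiftFunctor C n).map_injective (by rw [h5, Functor.map_zero])

/-- The product of the polynomials kills a Chow motive. -/
lemma prod_kill (hG : Good t (R l)) {P : C} {p : ℤ → ℚ[X]}
    (hw : ∀ i : ℤ, (R l).H.map ((pol φ (p i) P)⟦i⟧') = 0) :
    ∃ N : ℕ, pol φ (∏ i ∈ Finset.range (2 * N + 1), p (-N + i)) P = 0 := by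
  obtain ⟨N, hN1, hN2⟩ := bounded_of_H hG.ht hG.he hG.hu hG.hid hG.hle hG.hge P
  refine ⟨N, ?_⟩
  have key : ∀ j : ℕ, pol φ (∏ i ∈ Finset.range j, p (-N + i))
      ((t.truncLT (-N + j : ℤ)).obj P) = 0 := by
    intro j
    induction j with
    | zero =>
      have h1 : IsZero ((t.truncLT (-N + (0 : ℕ) : ℤ)).obj P) := by
        have h2 : t.IsGE P (-N + (0 : ℕ) : ℤ) := by simpa using hN2
        exact t.isZero_truncLT_obj_of_isGE _ P
      exact h1.eq_of_src _ _
    | succ j ih =>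
      have h1 := t.triangleLTLTGELT_distinguished (-N + j : ℤ) (-N + j + 1) (by omega) P
      have h2 : Tr ((t.truncLT (-N + j : ℤ)).obj P) ((t.truncLT (-N + j + 1 : ℤ)).obj P)
        ((pc t (-N + j)).obj P) := ⟨_, _, _, h1⟩
      rw [show (-N : ℤ) + ((j + 1 : ℕ) : ℤ) = -N + j + 1 by push_cast; ring,
        Finset.prod_range_succ]
      exact pol_ext h2 ih (pc_kill hG (hw _))
  have h1 := key (2 * N + 1)
  have h2 : IsIso ((t.truncLTι (-N + ((2 * N + 1 : ℕ) : ℤ))).app P) :=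
    (t.isLE_iff_isIso_truncLTι_app N _ (by push_cast; ring) P).1 hN1
  rw [← cancel_epi ((t.truncLTι (-N + ((2 * N + 1 : ℕ) : ℤ))).app P), comp_zero]
  have h3 := pol_nat φ (∏ i ∈ Finset.range (2 * N + 1), p (-N + i))
    ((t.truncLTι (-N + ((2 * N + 1 : ℕ) : ℤ))).app P)
  rw [h1, zero_comp] at h3
  exact h3.symm

/-- The maps from the unit to a Chow motive factor through a part in the heart. -/
lemma unit_factor [IsIdempotentComplete C] (hC : FiniteFieldMotives Chow φ R)
    (hG : Good t (R l)) {P : C} (hP : Chow P) :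
    ∃ (A : C) (i : A ⟶ P) (r : P ⟶ A), Chow A ∧ Hrt t A ∧
      (∀ x : 𝟙_ C ⟶ P, x = (x ≫ r) ≫ i) ∧
      ∀ (n : ℤ) (x : 𝟙_ C ⟶ P⟦n⟧), x = (x ≫ r⟦n⟧') ≫ i⟦n⟧' := by
  obtain ⟨p, hcop, hone, hw⟩ := hC.weil P hP
  obtain ⟨N, hN⟩ := prod_kill hG (hw l)
  have hmem : N ∈ Finset.range (2 * N + 1) := by
    rw [Finset.mem_range]
    omega
  obtain ⟨q, hq⟩ : ∃ q, q = ∏ i ∈ (Finset.range (2 * N + 1)).erase N, p (-N + i) := ⟨_, rfl⟩
  rw [← Finset.mul_prod_erase _ _ hmem, ← hq, neg_add_cancel] at hN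
  have hne : ∀ i ∈ (Finset.range (2 * N + 1)).erase N, (-N + i : ℤ) ≠ 0 := by
    intro i hi
    rw [Finset.mem_erase] at hi
    omega
  have hcq : IsCoprime (p 0) q := by
    rw [hq]
    exact IsCoprime.prod_right fun i hi => hcop 0 _ (hne i hi).symm
  have hq1 : q.eval 1 ≠ 0 := by
    rw [hq, Polynomial.eval_prod, Finset.prod_ne_zero_iff]
    exact fun i hi => hone _ (hne i hi)
  obtain ⟨A, B, i, r, -, -, hir, -, -, hA, -, u, v, huv, hri, -⟩ := split_coprime hcq hN
  have hAc : Chow A := hC.summand _ _ i r hir hP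
  have hzero : ∀ n : ℤ, n ≠ 0 → IsZero ((R l).H.obj (A⟦n⟧)) := by
    intro n hn
    obtain ⟨u, v, huv⟩ := hcop 0 n hn.symm
    have h1 : pol φ (p n) A = i ≫ pol φ (p n) P ≫ r := by
      rw [← Category.assoc, ← pol_nat, Category.assoc, hir, Category.comp_id]
    have h2 : (R l).H.map ((pol φ (p n) A)⟦n⟧') = 0 := by
      rw [h1, Functor.map_comp, Functor.map_comp, Functor.map_comp, Functor.map_comp, hw,
        zero_comp, comp_zero]
    have h5 : 𝟙 A = pol φ (p n) A ≫ pol φ v A := by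
      rw [← pol_one φ A, ← huv, pol_add, mul_comm u, pol_mul, hA, zero_comp, zero_add,
        mul_comm v, pol_mul]
    rw [IsZero.iff_id_eq_zero, ← CategoryTheory.Functor.map_id, ← CategoryTheory.Functor.map_id,
      h5, Functor.map_comp, Functor.map_comp, h2, zero_comp]
  have hunit : ∀ (w : ℚ[X]) (Y : C) (x : 𝟙_ C ⟶ Y), x ≫ pol φ w Y = w.eval 1 • x := by
    intro w Y x
    rw [← pol_nat, pol_of_id φ w hC.frobenius_unit, Linear.smul_comp, Category.id_comp]
  have hmain : ∀ (Y : C) (x : 𝟙_ C ⟶ Y), pol φ (p 0 * q) Y = 0 → x = x ≫ pol φ (v * q) Y := by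
    intro Y x hY
    have h1 : (p 0).eval 1 • x = 0 := by
      have h2 := hunit (p 0 * q) Y x
      rw [hY, comp_zero, Polynomial.eval_mul, mul_comm, mul_smul] at h2
      exact (smul_eq_zero_iff_right hq1).1 h2.symm
    have h3 : x = (u * p 0 + v * q).eval 1 • x := by rw [huv, Polynomial.eval_one, one_smul]
    rw [Polynomial.eval_add, add_smul, Polynomial.eval_mul (p := u), mul_smul, h1, smul_zero,
      zero_add, ← hunit] at h3
    exact h3
  refine ⟨A, i, r, hAc, ⟨?_, ?_⟩, fun x => ?_, fun n x => ?_⟩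
  · exact isLE_of_H hG.ht hG.he hG.hu hG.hid hG.hle hG.hge fun i hi => hzero i (by omega)
  · exact isGE_of_H hG.ht hG.he hG.hu hG.hid hG.hle hG.hge fun i hi => hzero i (by omega)
  · rw [Category.assoc, hri]
    exact hmain P x hN
  · rw [Category.assoc, ← Functor.map_comp, hri, ← pol_shift φ _ n (hC.frobenius_shift P n)]
    refine hmain _ x ?_
    rw [pol_shift φ _ n (hC.frobenius_shift P n), hN, Functor.map_zero]

/-- Parshin's conjecture. -/
lemma parshin_of [IsIdempotentComplete C] (hC : FiniteFieldMotives Chow φ R)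
    (hG : Good t (R l)) : Parshin Chow := by
  intro P hP n hn x
  obtain ⟨A, i, r, hA, hA2, -, h⟩ := unit_factor hC hG hP
  have h1 : t.IsGE (A⟦n⟧) (-n) := @TStructure.isGE_shift _ _ _ _ _ _ _ t A 0 n (-n) (by omega) hA2.2
  have h2 : x ≫ r⟦n⟧' = 0 := hom_zero hG.hu.1 h1 (by omega) _
  rw [h n x, h2, zero_comp]

/-- Rational and numerical equivalence coincide. -/
lemma ratNum_of [IsIdempotentComplete C] (hC : FiniteFieldMotives Chow φ R)
    (hG : Good t (R l)) : RationalEqualsNumerical Chow := by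
  intro P hP z hz
  obtain ⟨A, i, r, hA, hA2, h, -⟩ := unit_factor hC hG hP
  by_contra hne
  have h1 : z ≫ r ≠ 0 := fun h2 => hne (by rw [h z, h2, zero_comp])
  obtain ⟨s, hs⟩ := heart_pairing hG.ht hG.he hG.hu hG.hid hA2 Chow hC.unit
    (fun X hX => hC.tensor _ _ hX hA) (fun X hX m hm f => hC.negative _ _ hX hC.unit m hm f)
    (z ≫ r) h1
  exact hs (by rw [Category.assoc]; exact hz _)

/-- The main theorem. -/
theorem main [IsIdempotentComplete C] [Nonempty Λ]
    (hQ : ∀ e : 𝟙_ C ⟶ 𝟙_ C, ∃ q : ℚ, e = q • 𝟙 (𝟙_ C)) (hC : FiniteFieldMotives Chow φ R) :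
    (∃ t : TStructure C, IsMotivic t R) ↔ Parshin Chow ∧ RationalEqualsNumerical Chow := by
  obtain ⟨l⟩ := ‹Nonempty Λ›
  constructor
  · rintro ⟨t, ht⟩
    have hG := good_of_motivic (unit_idem hQ) ht l
    exact ⟨parshin_of hC hG, ratNum_of hC hG⟩
  · rintro ⟨hp, hr⟩
    exact exists_of hC ⟨hQ, hp, hr⟩ l

end

end Pool.Agent.U735.FF
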