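import Pool.Agent.U735.FF.Defs
import Pool.Agent.U735.IL.Ext

/-!
# Polynomials in the Frobenius endomorphism
-/

set_option autoImplicit false
set_option linter.unusedSectionVars false
set_option linter.unusedSimpArgs false
set_option backward.isDefEq.respectTransparency false
set_option backward.defeqAttrib.useBackward true

open CategoryTheory Limits MonoidalCategory Pretriangulated Triangulated
open scoped Polynomial

namespace Pool.Agent.U735.FF

open Pool.Agent.Y116.MT Pool.Agent.V1178.MT Pool.Agent.U735.IL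

universe v u w

section

variable {C : Type u} [Category.{v} C] [Preadditive C] [Linear ℚ C] (φ : 𝟭 C ⟶ 𝟭 C)

/-- The polynomials in the Frobenius endomorphism. -/
noncomputable def polHom (X : C) : ℚ[X] →ₐ[ℚ] End X :=
  Polynomial.aeval (R := ℚ) (A := End X) (φ.app X)

lemma pol_zero (X : C) : pol φ 0 X = 0 := (polHom φ X).map_zero

lemma pol_one (X : C) : pol φ 1 X = 𝟙 X := (polHom φ X).map_one

lemma pol_add (p q : ℚ[X]) (X : C) : pol φ (p + q) X = pol φ p X + pol φ q X :=
  (polHom φ X).map_add p q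

lemma pol_mul (p q : ℚ[X]) (X : C) : pol φ (p * q) X = pol φ p X ≫ pol φ q X := by
  rw [mul_comm p q]
  exact (polHom φ X).map_mul q p

lemma pol_X (X : C) : pol φ Polynomial.X X = φ.app X :=
  Polynomial.aeval_X (R := ℚ) (A := End X) (φ.app X)

lemma pol_C (c : ℚ) (X : C) : pol φ (Polynomial.C c) X = c • 𝟙 X := by
  have h : pol φ (Polynomial.C c) X = algebraMap ℚ (End X) c :=
    Polynomial.aeval_C (R := ℚ) (A := End X) (φ.app X) c
  rw [h, Algebra.algebraMap_eq_smul_one]
  rfl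

lemma pol_nat (q : ℚ[X]) {X Y : C} (f : X ⟶ Y) : pol φ q X ≫ f = f ≫ pol φ q Y := by
  induction q using Polynomial.induction_on with
  | C a => rw [pol_C, pol_C, Linear.smul_comp, Linear.comp_smul, Category.id_comp,
      Category.comp_id]
  | add p q hp hq => rw [pol_add, pol_add, Preadditive.add_comp, Preadditive.comp_add, hp, hq]
  | monomial n a ih =>
    have h : φ.app X ≫ f = f ≫ φ.app Y := (φ.naturality f).symm
    have e : ∀ Z : C, pol φ (Polynomial.C a * Polynomial.X ^ (n + 1)) Z =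
        pol φ (Polynomial.C a * Polynomial.X ^ n) Z ≫ φ.app Z := fun Z => by
      rw [pow_succ, ← mul_assoc, pol_mul φ (Polynomial.C a * Polynomial.X ^ n), pol_X]
    rw [e, e, Category.assoc, h, ← Category.assoc, ih, Category.assoc]

lemma pol_of_id (q : ℚ[X]) {X : C} (h : φ.app X = 𝟙 X) : pol φ q X = q.eval 1 • 𝟙 X := by
  induction q using Polynomial.induction_on with
  | C a => rw [pol_C, Polynomial.eval_C]
  | add p q hp hq => rw [pol_add, hp, hq, Polynomial.eval_add, add_smul]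
  | monomial n a ih =>
    rw [pow_succ, ← mul_assoc, pol_mul φ (Polynomial.C a * Polynomial.X ^ n), pol_X, h,
      Category.comp_id, ih, Polynomial.eval_mul (q := Polynomial.X), Polynomial.eval_X, mul_one]

variable [HasShift C ℤ] [∀ n : ℤ, (shiftFunctor C n).Additive]

lemma pol_shift (q : ℚ[X]) {X : C} (n : ℤ) (h : φ.app (X⟦n⟧) = (φ.app X)⟦n⟧') :
    pol φ q (X⟦n⟧) = (pol φ q X)⟦n⟧' := by
  have hc : ∀ (c : ℚ) (a : X ⟶ X), (c • a)⟦n⟧' = c • a⟦n⟧' := fun c a =>
    map_rat_smul (shiftFunctor C n).mapAddHom c a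
  induction q using Polynomial.induction_on with
  | C a => rw [pol_C, pol_C, hc, CategoryTheory.Functor.map_id]
  | add p q hp hq => rw [pol_add, pol_add, hp, hq, Functor.map_add]
  | monomial m a ih =>
    have e : ∀ Z : C, pol φ (Polynomial.C a * Polynomial.X ^ (m + 1)) Z =
        pol φ (Polynomial.C a * Polynomial.X ^ m) Z ≫ φ.app Z := fun Z => by
      rw [pow_succ, ← mul_assoc, pol_mul φ (Polynomial.C a * Polynomial.X ^ m), pol_X]
    rw [e, e, ih, Functor.map_comp, h]

end

section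

variable {C : Type u} [Category.{v} C] [Preadditive C] [HasZeroObject C] [HasShift C ℤ]
  [∀ n : ℤ, (shiftFunctor C n).Additive] [Pretriangulated C] [Linear ℚ C] {φ : 𝟭 C ⟶ 𝟭 C}

/-- The product kills an extension. -/
lemma pol_ext {p q : ℚ[X]} {X Y Z : C} (h : Tr X Y Z) (hX : pol φ p X = 0) (hZ : pol φ q Z = 0) :
    pol φ (p * q) Y = 0 := by
  obtain ⟨f, g, d, hT⟩ := h
  obtain ⟨l, hl⟩ := ce2 hT (pol φ q Y) (by rw [pol_nat, hZ, comp_zero])
  rw [mul_comm, pol_mul, hl, Category.assoc, ← pol_nat, hX, zero_comp, comp_zero]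

lemma tr_biprod (X Y : C) : Tr X (X ⊞ Y) Y := ⟨_, _, _, binaryBiproductTriangle_distinguished X Y⟩

/-- The decomposition given by coprime polynomials. -/
lemma split_coprime [IsIdempotentComplete C] {p q : ℚ[X]} (hpq : IsCoprime p q) {P : C}
    (h : pol φ (p * q) P = 0) : ∃ (A B : C) (i : A ⟶ P) (r : P ⟶ A) (j : B ⟶ P) (s : P ⟶ B),
      i ≫ r = 𝟙 A ∧ j ≫ s = 𝟙 B ∧ r ≫ i + s ≫ j = 𝟙 P ∧ pol φ p A = 0 ∧ pol φ q B = 0 ∧
      ∃ u v : ℚ[X], u * p + v * q = 1 ∧ r ≫ i = pol φ (v * q) P ∧ s ≫ j = pol φ (u * p) P := by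
  obtain ⟨u, v, huv⟩ := hpq
  have hz : ∀ w : ℚ[X], pol φ (w * (p * q)) P = 0 := fun w => by
    rw [pol_mul, h, comp_zero]
  have e1 : pol φ (v * q) P ≫ pol φ (v * q) P = pol φ (v * q) P := by
    rw [← pol_mul]
    have h1 : v * q = (v * q) * (v * q) + (u * v) * (p * q) := by
      have h2 : v * q = (v * q) * (u * p + v * q) := by rw [huv, mul_one]
      conv_lhs => rw [h2]
      ring
    conv_rhs => rw [h1, pol_add, hz, add_zero]
  have e2 : pol φ (u * p) P ≫ pol φ (u * p) P = pol φ (u * p) P := by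
    rw [← pol_mul]
    have h1 : u * p = (u * p) * (u * p) + (u * v) * (p * q) := by
      have h2 : u * p = (u * p) * (u * p + v * q) := by rw [huv, mul_one]
      conv_lhs => rw [h2]
      ring
    conv_rhs => rw [h1, pol_add, hz, add_zero]
  obtain ⟨A, i, r, hir, hri⟩ := IsIdempotentComplete.idempotents_split P _ e1
  obtain ⟨B, j, s, hjs, hsj⟩ := IsIdempotentComplete.idempotents_split P _ e2
  refine ⟨A, B, i, r, j, s, hir, hjs, ?_, ?_, ?_, u, v, huv, hri, hsj⟩
  · rw [hri, hsj, ← pol_add, add_comm, huv, pol_one]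
  · have h1 : i = i ≫ pol φ (v * q) P := by rw [← hri, reassoc_of% hir]
    have h2 : pol φ p A ≫ i = 0 := by
      rw [pol_nat, h1, Category.assoc, ← pol_mul, show v * q * p = v * (p * q) by ring, hz,
        comp_zero]
    rw [← Category.comp_id (pol φ p A), ← hir, reassoc_of% h2, zero_comp]
  · have h1 : j = j ≫ pol φ (u * p) P := by rw [← hsj, reassoc_of% hjs]
    have h2 : pol φ q B ≫ j = 0 := by
      rw [pol_nat, h1, Category.assoc, ← pol_mul, show u * p * q = u * (p * q) by ring, hz,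
        comp_zero]
    rw [← Category.comp_id (pol φ q B), ← hjs, reassoc_of% h2, zero_comp]

/-- A decomposition is an extension. -/
lemma tr_of_split {A B P : C} {i : A ⟶ P} {r : P ⟶ A} {j : B ⟶ P} {s : P ⟶ B}
    (hir : i ≫ r = 𝟙 A) (hjs : j ≫ s = 𝟙 B) (ht : r ≫ i + s ≫ j = 𝟙 P) : Tr A P B := by
  have h0 : r ≫ i ≫ s ≫ j = 0 := by
    have h1 : (r ≫ i) ≫ (r ≫ i + s ≫ j) = r ≫ i := by rw [ht, Category.comp_id]
    rw [Preadditive.comp_add] at h1
    have h2 : (r ≫ i) ≫ r ≫ i = r ≫ i := by rw [Category.assoc, reassoc_of% hir]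
    rw [h2] at h1
    simpa using h1
  have h0' : s ≫ j ≫ r ≫ i = 0 := by
    have h1 : (s ≫ j) ≫ (r ≫ i + s ≫ j) = s ≫ j := by rw [ht, Category.comp_id]
    rw [Preadditive.comp_add] at h1
    have h2 : (s ≫ j) ≫ s ≫ j = s ≫ j := by rw [Category.assoc, reassoc_of% hjs]
    rw [h2] at h1
    simpa using h1
  have h1 : i ≫ s = 0 := by
    have h2 : i ≫ s = i ≫ (r ≫ i ≫ s ≫ j) ≫ s := by
      simp only [Category.assoc]
      rw [reassoc_of% hir, hjs, Category.comp_id]
    rw [h2, h0, zero_comp, comp_zero]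
  have h2 : j ≫ r = 0 := by
    have h3 : j ≫ r = j ≫ (s ≫ j ≫ r ≫ i) ≫ r := by
      simp only [Category.assoc]
      rw [reassoc_of% hjs, hir, Category.comp_id]
    rw [h3, h0', zero_comp, comp_zero]
  let e : A ⊞ B ≅ P :=
    { hom := biprod.desc i j
      inv := biprod.lift r s
      hom_inv_id := by
        ext <;> simp [hir, hjs, h1, h2]
      inv_hom_id := by
        rw [biprod.lift_desc, ht] }
  exact (tr_biprod A B).ofIso₂ e

end

end Pool.Agent.U735.FF
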